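import Pool.Agent.H798.BV.Stm3
import Pool.Agent.H807.BV.Bd

/-!
Lower bound of the Bregman distance of `|z|^p`, all `p > 1` (helper826). The case `p ≤ 2` is
`Pool.Agent.H807.BV.breg`.
-/

set_option autoImplicit false

open Pool.Agent.H798.BV

namespace Pool.Agent.H826.BV

/-- Bernoulli: the tangent inequality for `u ^ (p/2)` at `u = R²`. -/
theorem tangent {p : ℝ} (hp : 2 ≤ p) {X R : ℝ} (hX : 0 ≤ X) (hR : 0 < R) :
    R ^ p + p / 2 * R ^ (p - 2) * (X ^ 2 - R ^ 2) ≤ X ^ p := by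
  have hR2 : 0 < R ^ 2 := by positivity
  have hs : -1 ≤ X ^ 2 / R ^ 2 - 1 := by
    have : 0 ≤ X ^ 2 / R ^ 2 := by positivity
    linarith
  have h1 := one_add_mul_self_le_rpow_one_add hs (p := p / 2) (by linarith)
  have h2 : (1 + (X ^ 2 / R ^ 2 - 1)) ^ (p / 2) = (X / R) ^ p := by
    have h3 : 1 + (X ^ 2 / R ^ 2 - 1) = (X / R) ^ (2 : ℝ) := by
      rw [Real.rpow_two, div_pow]
      ring
    rw [h3, ← Real.rpow_mul (by positivity)]
    congr 1
    ring
  rw [h2, Real.div_rpow hX hR.le] at h1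
  have hRp : 0 < R ^ p := Real.rpow_pos_of_pos hR p
  have h4 : R ^ p * (1 + p / 2 * (X ^ 2 / R ^ 2 - 1)) ≤ R ^ p * (X ^ p / R ^ p) :=
    mul_le_mul_of_nonneg_left h1 hRp.le
  have h5 : R ^ p * (X ^ p / R ^ p) = X ^ p := by field_simp
  have h6 : R ^ p = R ^ (p - 2) * R ^ 2 := by
    rw [← Real.rpow_natCast R 2, ← Real.rpow_add hR]
    congr 1
    push_cast
    ring
  have h7 : R ^ p * (1 + p / 2 * (X ^ 2 / R ^ 2 - 1)) =
      R ^ p + p / 2 * R ^ (p - 2) * (X ^ 2 - R ^ 2) := by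
    have h8 : R ^ p * (X ^ 2 / R ^ 2 - 1) = R ^ (p - 2) * (X ^ 2 - R ^ 2) := by
      rw [h6]
      field_simp
    calc R ^ p * (1 + p / 2 * (X ^ 2 / R ^ 2 - 1)) =
          R ^ p + p / 2 * (R ^ p * (X ^ 2 / R ^ 2 - 1)) := by ring
      _ = _ := by rw [h8]; ring
  rw [h5, h7] at h4
  exact h4

/-- the numerical inequality `1 + 8 p + 32 ≤ 7 ^ p` -/
theorem seven {p : ℝ} (hp : 2 ≤ p) : 1 + 8 * p + 32 ≤ (7 : ℝ) ^ p := by
  have h1 := one_add_mul_self_le_rpow_one_add (s := 48) (by norm_num) (p := p / 2) (by linarith)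
  have h2 : (1 + 48 : ℝ) ^ (p / 2) = 7 ^ p := by
    have h3 : (1 + 48 : ℝ) = 7 ^ (2 : ℝ) := by norm_num
    rw [h3, ← Real.rpow_mul (by norm_num)]
    congr 1
    ring
  rw [h2] at h1
  linarith

theorem big {p : ℝ} (hp : 2 ≤ p) {W v : ℂ} :
    (9 : ℝ) ^ (-p) * (‖v‖ ^ 2 * (‖W‖ + ‖v‖) ^ (p - 2)) ≤
      ‖W + v‖ ^ p - ‖W‖ ^ p - p * ((starRingEnd ℂ) (chi p W) * v).re := by
  have hp0 : 0 < p := by linarith
  rcases eq_or_ne v 0 with hv | hv
  · subst hv
    simp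
  have hv0 : 0 < ‖v‖ := norm_pos_iff.2 hv
  set R := ‖W‖ with hR
  set X := ‖W + v‖ with hX
  set V := ‖v‖ with hV
  have hR0 : 0 ≤ R := norm_nonneg _
  have hX0 : 0 ≤ X := norm_nonneg _
  have h9 : (0 : ℝ) < 9 ^ (-p) := Real.rpow_pos_of_pos (by norm_num) _
  have h9p : (9 : ℝ) ^ (-p) * 9 ^ (p - 2) = 1 / 81 := by
    rw [← Real.rpow_add (by norm_num)]
    have : -p + (p - 2) = (-2 : ℝ) := by ring
    rw [this, Real.rpow_neg (by norm_num)]
    norm_num
  rcases le_or_gt V (8 * R) with h | h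
  · -- near
    have hRpos : 0 < R := by linarith
    have hsq : X ^ 2 = R ^ 2 + 2 * ((starRingEnd ℂ) W * v).re + V ^ 2 := by
      rw [hX, hR, hV, Pool.Agent.H807.BV.norm_sq_eq, Pool.Agent.H807.BV.norm_sq_eq,
        Pool.Agent.H807.BV.norm_sq_eq]
      simp
      ring
    have hin : ((starRingEnd ℂ) (chi p W) * v).re = R ^ (p - 2) * ((X ^ 2 - R ^ 2 - V ^ 2) / 2) := by
      have h1 : (starRingEnd ℂ) (chi p W) * v = ((R ^ (p - 2) : ℝ) : ℂ) * ((starRingEnd ℂ) W * v) := by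
        unfold chi
        rw [map_mul, Complex.conj_ofReal, hR]
        ring
      rw [h1, Complex.re_ofReal_mul]
      congr 1
      linarith
    have h1 := tangent hp hX0 hRpos
    have h2 : (R + V) ^ (p - 2) ≤ 9 ^ (p - 2) * R ^ (p - 2) := by
      rw [← Real.mul_rpow (by norm_num) hR0]
      exact Real.rpow_le_rpow (by positivity) (by linarith) (by linarith)
    have hP : 0 ≤ R ^ (p - 2) := Real.rpow_nonneg hR0 _
    have h3 : (9 : ℝ) ^ (-p) * (V ^ 2 * (R + V) ^ (p - 2)) ≤ 1 / 81 * (R ^ (p - 2) * V ^ 2) := by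
      calc (9 : ℝ) ^ (-p) * (V ^ 2 * (R + V) ^ (p - 2)) ≤
            9 ^ (-p) * (V ^ 2 * (9 ^ (p - 2) * R ^ (p - 2))) := by gcongr
        _ = (9 ^ (-p) * 9 ^ (p - 2)) * (R ^ (p - 2) * V ^ 2) := by ring
        _ = _ := by rw [h9p]
    have h4 : 0 ≤ R ^ (p - 2) * V ^ 2 := by positivity
    rw [hin]
    nlinarith
  · -- far
    have hXV : 7 / 8 * V ≤ X := by
      have h1 : V ≤ X + R := by
        have : v = (W + v) - W := by ring
        calc V = ‖(W + v) - W‖ := by rw [hV]; congr 1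
          _ ≤ _ := norm_sub_le _ _
      linarith
    have hVp : 0 ≤ V ^ p := Real.rpow_nonneg hv0.le _
    have h1 : (7 / 8 : ℝ) ^ p * V ^ p ≤ X ^ p := by
      rw [← Real.mul_rpow (by norm_num) hv0.le]
      exact Real.rpow_le_rpow (by positivity) hXV hp0.le
    have h2 : R ^ p ≤ (1 / 8 : ℝ) ^ p * V ^ p := by
      rw [← Real.mul_rpow (by norm_num) hv0.le]
      exact Real.rpow_le_rpow hR0 (by linarith) hp0.le
    have h3 : ((starRingEnd ℂ) (chi p W) * v).re ≤ R ^ (p - 1) * V := by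
      refine (Complex.re_le_norm _).trans ?_
      rw [norm_mul, Complex.norm_conj]
      exact mul_le_mul_of_nonneg_right (Pool.Agent.H807.BV.norm_chi_le (by linarith) W) hv0.le
    have h4 : R ^ (p - 1) ≤ (1 / 8 : ℝ) ^ (p - 1) * V ^ (p - 1) := by
      rw [← Real.mul_rpow (by norm_num) hv0.le]
      exact Real.rpow_le_rpow hR0 (by linarith) (by linarith)
    have h5 : V ^ (p - 1) * V = V ^ p := by
      rw [← Real.rpow_add_one hv0.ne']
      congr 1
      ring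
    have h6 : (1 / 8 : ℝ) ^ (p - 1) = 8 * (1 / 8) ^ p := by
      rw [Real.rpow_sub_one (by norm_num)]
      ring
    have h7 : p * ((starRingEnd ℂ) (chi p W) * v).re ≤ 8 * p * (1 / 8 : ℝ) ^ p * V ^ p := by
      calc p * ((starRingEnd ℂ) (chi p W) * v).re ≤ p * (((1 / 8 : ℝ) ^ (p - 1) * V ^ (p - 1)) * V) :=
            mul_le_mul_of_nonneg_left (h3.trans (mul_le_mul_of_nonneg_right h4 hv0.le)) hp0.le
        _ = p * (1 / 8 : ℝ) ^ (p - 1) * (V ^ (p - 1) * V) := by ring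
        _ = _ := by rw [h5, h6]; ring
    have h8 : (7 / 8 : ℝ) ^ p = 7 ^ p * (1 / 8) ^ p := by
      rw [← Real.mul_rpow (by norm_num) (by norm_num)]
      norm_num
    have hE : 0 < (1 / 8 : ℝ) ^ p := Real.rpow_pos_of_pos (by norm_num) _
    have h9' : 32 * ((1 / 8 : ℝ) ^ p * V ^ p) ≤
        X ^ p - R ^ p - p * ((starRingEnd ℂ) (chi p W) * v).re := by
      have h10 := seven hp
      have h11 : 0 ≤ (1 / 8 : ℝ) ^ p * V ^ p := by positivity
      rw [h8] at h1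
      nlinarith
    refine le_trans ?_ h9'
    have h12 : (R + V) ^ (p - 2) ≤ (9 / 8 : ℝ) ^ (p - 2) * V ^ (p - 2) := by
      rw [← Real.mul_rpow (by norm_num) hv0.le]
      exact Real.rpow_le_rpow (by positivity) (by linarith) (by linarith)
    have h13 : V ^ 2 * V ^ (p - 2) = V ^ p := by
      rw [← Real.rpow_natCast V 2, ← Real.rpow_add hv0]
      congr 1
      push_cast
      ring
    have h14 : (9 : ℝ) ^ (-p) * (9 / 8) ^ (p - 2) = 64 / 81 * (1 / 8) ^ p := by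
      have e1 : (9 / 8 : ℝ) ^ (p - 2) = 9 ^ (p - 2) * (1 / 8) ^ (p - 2) := by
        rw [← Real.mul_rpow (by norm_num) (by norm_num)]
        norm_num
      have e2 : (1 / 8 : ℝ) ^ (p - 2) = 64 * (1 / 8) ^ p := by
        rw [Real.rpow_sub (by norm_num)]
        norm_num
        ring
      rw [e1, ← mul_assoc, h9p, e2]
      ring
    calc (9 : ℝ) ^ (-p) * (V ^ 2 * (R + V) ^ (p - 2)) ≤
          9 ^ (-p) * (V ^ 2 * ((9 / 8 : ℝ) ^ (p - 2) * V ^ (p - 2))) := by gcongr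
      _ = (9 ^ (-p) * (9 / 8 : ℝ) ^ (p - 2)) * (V ^ 2 * V ^ (p - 2)) := by ring
      _ = 64 / 81 * ((1 / 8 : ℝ) ^ p * V ^ p) := by rw [h14, h13]; ring
      _ ≤ 32 * ((1 / 8 : ℝ) ^ p * V ^ p) := by
          have : 0 ≤ (1 / 8 : ℝ) ^ p * V ^ p := by positivity
          linarith

theorem t_BRL : S_BRL := by
  intro p hp
  rcases le_or_gt p 2 with h2 | h2
  · have hpp : 0 < p * (p - 1) / 2 := by
      have : 0 < p * (p - 1) := mul_pos (by linarith) (by linarith)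
      linarith
    refine ⟨min (p * (p - 1) / 2) 1, lt_min hpp one_pos, fun W v => ?_⟩
    rcases eq_or_ne W 0 with hW | hW
    · subst hW
      have hchi : chi p (0 : ℂ) = 0 := by
        unfold chi
        rw [mul_zero]
      rw [hchi]
      simp only [zero_add, norm_zero, map_zero, zero_mul, Complex.zero_re, mul_zero, sub_zero]
      rw [Real.zero_rpow (by linarith)]
      rcases eq_or_ne v 0 with hv | hv
      · subst hv
        simp [Real.zero_rpow (by linarith : p ≠ 0)]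
      have hv0 : 0 < ‖v‖ := norm_pos_iff.2 hv
      have h13 : ‖v‖ ^ 2 * ‖v‖ ^ (p - 2) = ‖v‖ ^ p := by
        rw [← Real.rpow_natCast ‖v‖ 2, ← Real.rpow_add hv0]
        congr 1
        push_cast
        ring
      rw [h13, sub_zero]
      have h14 : 0 ≤ ‖v‖ ^ p := Real.rpow_nonneg hv0.le _
      have h15 : min (p * (p - 1) / 2) 1 ≤ (1 : ℝ) := min_le_right _ _
      nlinarith
    · refine le_trans ?_ (Pool.Agent.H807.BV.breg hp h2 hW)
      have h3 : 0 ≤ ‖v‖ ^ 2 * (‖W‖ + ‖v‖) ^ (p - 2) := by positivity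
      calc min (p * (p - 1) / 2) 1 * (‖v‖ ^ 2 * (‖W‖ + ‖v‖) ^ (p - 2)) ≤
            p * (p - 1) / 2 * (‖v‖ ^ 2 * (‖W‖ + ‖v‖) ^ (p - 2)) :=
            mul_le_mul_of_nonneg_right (min_le_left _ _) h3
        _ = _ := by ring
  · exact ⟨9 ^ (-p), Real.rpow_pos_of_pos (by norm_num) _, fun W v => big h2.le⟩

end Pool.Agent.H826.BV
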